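import Pool.Agent.W809.ZQ.Stm

/-! Project ZQ (helper809, MP_3a9d0e_gt): reduction to a minimal subgroup. -/

set_option autoImplicit false

open Set Filter Topology

namespace Pool.Agent.W15.ZQ

open Pool.Agent.W809.ZQ

theorem min (hDCC : S_DCC) : S_MIN := by
  intro n G hZ hG
  let F : Set (Subgroup (U n)) :=
    {N | IsClosed (N : Set (U n)) ∧ N ≤ (N ⊓ G).topologicalClosure ∧ ¬ N ≤ G}
  have hF : G.topologicalClosure ∈ F := by
    refine ⟨G.isClosed_topologicalClosure, ?_, ?_⟩
    · have : G.topologicalClosure ⊓ G = G := inf_eq_right.2 G.le_topologicalClosure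
      rw [this]
    · intro h
      apply hG
      have h2 : G.topologicalClosure = G := le_antisymm h G.le_topologicalClosure
      have h3 := G.isClosed_topologicalClosure
      rwa [h2] at h3
  obtain ⟨N, hN, hmin⟩ := hDCC n F ⟨_, hF⟩ (fun N h => h.1)
  obtain ⟨hNc, hNd, hNG⟩ := hN
  refine ⟨N ⊓ G, ?_, ?_, ?_⟩
  · intro hc
    apply hNG
    have h1 : (N ⊓ G).topologicalClosure ≤ N ⊓ G :=
      (N ⊓ G).topologicalClosure_minimal le_rfl hc
    exact (hNd.trans h1).trans inf_le_right
  · intro D hDC hrel hne
    have h1 : D.topologicalClosure ≤ N :=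
      D.topologicalClosure_minimal (hDC.trans inf_le_left) hNc
    have h2 : D.topologicalClosure ⊓ G = D := by
      apply le_antisymm
      · intro x hx
        obtain ⟨hx1, hx2⟩ := Subgroup.mem_inf.1 hx
        exact hrel x (Subgroup.mem_inf.2 ⟨h1 hx1, hx2⟩) hx1
      · exact le_inf D.le_topologicalClosure (hDC.trans inf_le_right)
    by_cases h3 : D.topologicalClosure ≤ G
    · have h4 : D.topologicalClosure = D := by
        have := inf_eq_left.2 h3
        rw [h2] at this
        exact this.symm
      have h5 := D.isClosed_topologicalClosure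
      rwa [h4] at h5
    · exfalso
      apply hne
      have h4 : D.topologicalClosure = N :=
        hmin _ ⟨D.isClosed_topologicalClosure, by rw [h2], h3⟩ h1
      rw [← h2, h4]
  · intro D hDC hrel
    refine hZ D (hDC.trans inf_le_right) (fun x hx hcl => ?_)
    have h1 : x ∈ N := by
      have h2 : closure (D : Set (U n)) ⊆ (N : Set (U n)) :=
        closure_minimal (fun y hy => (hDC.trans inf_le_left) hy) hNc
      exact h2 hcl
    exact hrel x (Subgroup.mem_inf.2 ⟨h1, hx⟩) hcl

end Pool.Agent.W15.ZQ
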